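import Pool.Agent.H32.RQ.Targets

/-!
# The density modulo `M` is at least one half for most pairs
-/

set_option autoImplicit false

namespace Pool.Agent.H81.RQ

open Finset Pool.Agent.H32.RQ

section

variable {s M : ℕ} [NeZero M]

/-- the forms which vanish at `x` -/
def ze (x : Fin s → ZMod M) : Finset (Mon s → ZMod M) := univ.filter fun f => qf f x = 0

/-- the forms which vanish at `x` and `y` -/
def ze2 (x y : Fin s → ZMod M) : Finset (Mon s → ZMod M) :=
  univ.filter fun f => qf f x = 0 ∧ qf f y = 0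

/-- the number of the relations -/
def nr (x y : Fin s → ZMod M) : ℕ :=
  (univ.filter fun q : ZMod M × ZMod M => ∀ p : Mon s, q.1 * nu x p + q.2 * nu y p = 0).card

open Classical in
/-- the primitive vectors -/
noncomputable def PX (s M : ℕ) [NeZero M] : Finset (Fin s → ZMod M) :=
  univ.filter fun x : Fin s → ZMod M => Prm x

open Classical in
/-- the indicator of the zeros -/
noncomputable def iz (F : Fin 2 → Mon s → ZMod M) (x : Fin s → ZMod M) : ℝ :=
  if ∀ i, qf (F i) x = 0 then 1 else 0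

theorem am_eq (F : Fin 2 → Mon s → ZMod M) : (am M F : ℝ) = ∑ x ∈ PX s M, iz F x := by
  classical
  have h : am M F = ((PX s M).filter fun x => ∀ i, qf (F i) x = 0).card := by
    unfold am PX
    congr 1
    ext x
    simp only [mem_filter, mem_univ, true_and]
  rw [h, card_filter]
  push_cast
  refine sum_congr rfl fun x _ => ?_
  unfold iz
  by_cases h : ∀ i, qf (F i) x = 0
  · simp only [if_pos h]
  · simp only [if_neg h]

theorem sum_iz (x : Fin s → ZMod M) :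
    ∑ F : Fin 2 → Mon s → ZMod M, iz F x = ((ze x).card : ℝ) ^ 2 := by
  classical
  have h1 : (univ.filter fun F : Fin 2 → Mon s → ZMod M => ∀ i, qf (F i) x = 0) =
      Fintype.piFinset (fun _ : Fin 2 => ze x) := by
    ext F
    unfold ze
    simp only [mem_filter, mem_univ, true_and, Fintype.mem_piFinset]
  have h2 : ∑ F : Fin 2 → Mon s → ZMod M, iz F x =
      ((univ.filter fun F : Fin 2 → Mon s → ZMod M => ∀ i, qf (F i) x = 0).card : ℝ) := by
    rw [card_filter]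
    push_cast
    refine sum_congr rfl fun F _ => ?_
    unfold iz
    by_cases h : ∀ i, qf (F i) x = 0
    · simp only [if_pos h]
    · simp only [if_neg h]
  rw [h2, h1, Fintype.card_piFinset_const, Nat.cast_pow]

theorem sum_iz2 (x y : Fin s → ZMod M) :
    ∑ F : Fin 2 → Mon s → ZMod M, iz F x * iz F y = ((ze2 x y).card : ℝ) ^ 2 := by
  classical
  have h1 : (univ.filter fun F : Fin 2 → Mon s → ZMod M =>
      (∀ i, qf (F i) x = 0) ∧ ∀ i, qf (F i) y = 0) =
      Fintype.piFinset (fun _ : Fin 2 => ze2 x y) := by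
    ext F
    unfold ze2
    simp only [mem_filter, mem_univ, true_and, Fintype.mem_piFinset]
    exact ⟨fun h i => ⟨h.1 i, h.2 i⟩, fun h => ⟨fun i => (h i).1, fun i => (h i).2⟩⟩
  have h2 : ∑ F : Fin 2 → Mon s → ZMod M, iz F x * iz F y =
      ((univ.filter fun F : Fin 2 → Mon s → ZMod M =>
        (∀ i, qf (F i) x = 0) ∧ ∀ i, qf (F i) y = 0).card : ℝ) := by
    rw [card_filter]
    push_cast
    refine sum_congr rfl fun F _ => ?_
    unfold iz
    by_cases h : ∀ i, qf (F i) x = 0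
    · by_cases h' : ∀ i, qf (F i) y = 0
      · rw [if_pos h, if_pos h', if_pos ⟨h, h'⟩, one_mul]
      · have h3 : ¬ ((∀ i, qf (F i) x = 0) ∧ ∀ i, qf (F i) y = 0) := fun h2 => h' h2.2
        rw [if_pos h, if_neg h', if_neg h3, mul_zero]
    · have h3 : ¬ ((∀ i, qf (F i) x = 0) ∧ ∀ i, qf (F i) y = 0) := fun h2 => h h2.1
      rw [if_neg h, if_neg h3, zero_mul]
  rw [h2, h1, Fintype.card_piFinset_const, Nat.cast_pow]

theorem nr_self {x : Fin s → ZMod M} (hx : Prm x) : nr x x = M := by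
  classical
  obtain ⟨a, ha⟩ := hx
  have h0 : ∀ q : ZMod M × ZMod M, (∀ p : Mon s, q.1 * nu x p + q.2 * nu x p = 0) →
      q.1 + q.2 = 0 := by
    intro q hq
    have h1 : ∀ i j : Fin s, (q.1 + q.2) * (x i * x j) = 0 := by
      intro i j
      rcases le_total i j with h | h
      · have := hq ⟨(i, j), h⟩
        unfold nu at this
        rw [add_mul]
        exact this
      · have := hq ⟨(j, i), h⟩
        unfold nu at this
        rw [add_mul, mul_comm (x i)]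
        exact this
    calc q.1 + q.2 = (q.1 + q.2) * ((∑ i, a i * x i) * (∑ j, a j * x j)) := by
          rw [ha, one_mul, mul_one]
      _ = ∑ i, ∑ j, a i * a j * ((q.1 + q.2) * (x i * x j)) := by
          rw [Finset.sum_mul_sum, Finset.mul_sum]
          refine sum_congr rfl fun i _ => ?_
          rw [Finset.mul_sum]
          refine sum_congr rfl fun j _ => ?_
          ring
      _ = 0 := sum_eq_zero fun i _ => sum_eq_zero fun j _ => by rw [h1, mul_zero]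
  have h2 : (univ.filter fun q : ZMod M × ZMod M =>
      ∀ p : Mon s, q.1 * nu x p + q.2 * nu x p = 0) =
      (univ : Finset (ZMod M)).image (fun a => (a, -a)) := by
    ext q
    rw [mem_filter, mem_image]
    constructor
    · rintro ⟨-, hq⟩
      refine ⟨q.1, mem_univ _, ?_⟩
      have := h0 q hq
      exact Prod.ext rfl (neg_eq_of_add_eq_zero_right this)
    · rintro ⟨b, -, rfl⟩
      refine ⟨mem_univ _, fun p => ?_⟩
      change b * nu x p + -b * nu x p = 0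
      ring
  unfold nr
  rw [h2, card_image_of_injective _ (fun a b hab => congrArg Prod.fst hab), card_univ,
    ZMod.card]

end

theorem tail (w : ℕ) (hw : 1 ≤ w) (n : ℕ) (hn : w ≤ n) :
    ∑ h ∈ Ioc w n, 1 / (h : ℝ) ^ 3 ≤ 1 / (w : ℝ) ^ 2 - 1 / (n : ℝ) ^ 2 := by
  induction n, hn using Nat.le_induction with
  | base =>
    rw [Ioc_self, sum_empty, sub_self]
  | succ n hn ih =>
    rw [← Finset.insert_Ioc_right_eq_Ioc_add_one hn,
      sum_insert (by rw [mem_Ioc]; omega)]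
    have hn0 : (0 : ℝ) < n := by
      have : 0 < n := by omega
      exact_mod_cast this
    have hn1 : (1 : ℝ) ≤ n := by
      have : 1 ≤ n := by omega
      exact_mod_cast this
    have h1 : 1 / ((n + 1 : ℕ) : ℝ) ^ 3 ≤ 1 / (n : ℝ) ^ 2 - 1 / ((n + 1 : ℕ) : ℝ) ^ 2 := by
      push_cast
      rw [div_sub_div _ _ (by positivity) (by positivity),
        div_le_div_iff₀ (by positivity) (by positivity)]
      nlinarith [mul_pos hn0 hn0, pow_pos hn0 3, pow_pos hn0 4]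
    linarith

theorem tailD (w : ℕ) (hw : 1 ≤ w) (D : Finset ℕ) (hD : ∀ h ∈ D, w < h) :
    ∑ h ∈ D, 1 / (h : ℝ) ^ 3 ≤ 1 / (w : ℝ) ^ 2 := by
  have h1 : D ⊆ Ioc w (w + D.sup id) := by
    intro h hh
    rw [mem_Ioc]
    have h2 : h ≤ D.sup id := le_sup (f := id) hh
    exact ⟨hD h hh, by omega⟩
  have h3 : 0 ≤ 1 / ((w + D.sup id : ℕ) : ℝ) ^ 2 := by positivity
  calc ∑ h ∈ D, 1 / (h : ℝ) ^ 3 ≤ ∑ h ∈ Ioc w (w + D.sup id), 1 / (h : ℝ) ^ 3 :=
        sum_le_sum_of_subset_of_nonneg h1 fun _ _ _ => by positivity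
    _ ≤ 1 / (w : ℝ) ^ 2 - 1 / ((w + D.sup id : ℕ) : ℝ) ^ 2 := tail w hw _ (by omega)
    _ ≤ 1 / (w : ℝ) ^ 2 := by linarith

theorem pf_AQ4 (hAQ1 : T_AQ1) (hAQ2 : T_AQ2) (hAQ3 : T_AQ3) : T_AQ4 := by
  intro s hs
  refine ⟨12, by norm_num, ?_⟩
  intro M w₀ _ hw hp
  classical
  have hM0 : 0 < M := Nat.pos_of_ne_zero (NeZero.ne M)
  have hM : (0 : ℝ) < M := by exact_mod_cast hM0
  have hwR : (0 : ℝ) < w₀ := by exact_mod_cast hw
  obtain ⟨B, hB⟩ : ∃ B : ℝ, B = (M : ℝ) ^ md s := ⟨_, rfl⟩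
  have hB0 : 0 < B := by rw [hB]; positivity
  obtain ⟨A, hA⟩ : ∃ A : ℝ, A = (M : ℝ) ^ (s - 2) := ⟨_, rfl⟩
  have hA0 : 0 < A := by rw [hA]; positivity
  have hMs : (M : ℝ) ^ s = A * (M : ℝ) ^ 2 := by
    rw [hA, ← pow_add]
    congr 1
    omega
  -- cardinalities
  have c2 : ∀ x y : Fin s → ZMod M, ((ze2 x y).card : ℝ) = B / (M : ℝ) ^ 2 * (nr x y : ℝ) := by
    intro x y
    have h1 := hAQ1 s M x y
    have h2 : (ze2 x y).card * M ^ 2 = M ^ md s * nr x y := h1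
    have h3 : ((ze2 x y).card : ℝ) * (M : ℝ) ^ 2 = B * (nr x y : ℝ) := by
      rw [hB]
      exact_mod_cast h2
    field_simp
    exact h3
  have c1 : ∀ x : Fin s → ZMod M, Prm x → ((ze x).card : ℝ) = B / M := by
    intro x hx
    have h1 : ze x = ze2 x x := by
      ext f
      unfold ze ze2
      simp only [mem_filter, mem_univ, true_and, and_self]
    rw [h1, c2, nr_self hx]
    field_simp
  -- the first moment
  have m1 : ∑ F : Fin 2 → Mon s → ZMod M, (am M F : ℝ) = ((PX s M).card : ℝ) * (B / M) ^ 2 := by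
    rw [sum_congr rfl fun F _ => am_eq F, sum_comm]
    rw [sum_congr rfl fun x hx => by
      rw [sum_iz x, c1 x (mem_filter.1 hx).2]]
    rw [sum_const, nsmul_eq_mul]
  -- the second moment
  obtain ⟨H, hH⟩ : ∃ H : ℝ, H = ∑ h ∈ M.divisors, (h : ℝ) ^ 3 / (h : ℝ) ^ s := ⟨_, rfl⟩
  obtain ⟨P, hP⟩ : ∃ P : ℝ, P = ∑ p ∈ M.primeFactors, 1 / (p : ℝ) ^ s := ⟨_, rfl⟩
  have hH0 : 0 ≤ H := by
    rw [hH]
    exact sum_nonneg fun h _ => by positivity
  have hPX : ((PX s M).card : ℝ) ≤ (M : ℝ) ^ s := by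
    have h1 : (PX s M).card ≤ M ^ s := by
      calc (PX s M).card ≤ (univ : Finset (Fin s → ZMod M)).card := card_le_card (filter_subset _ _)
        _ = M ^ s := by rw [card_univ, Fintype.card_fun, ZMod.card, Fintype.card_fin]
    exact_mod_cast h1
  have m2 : ∑ F : Fin 2 → Mon s → ZMod M, (am M F : ℝ) ^ 2 ≤ B ^ 2 * A ^ 2 * H := by
    have e1 : ∑ F : Fin 2 → Mon s → ZMod M, (am M F : ℝ) ^ 2 =
        ∑ x ∈ PX s M, ∑ y ∈ PX s M, ((ze2 x y).card : ℝ) ^ 2 := by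
      have e2 : ∀ F : Fin 2 → Mon s → ZMod M, (am M F : ℝ) ^ 2 =
          ∑ x ∈ PX s M, ∑ y ∈ PX s M, iz F x * iz F y := by
        intro F
        rw [am_eq, sq, sum_mul_sum]
      rw [sum_congr rfl fun F _ => e2 F, sum_comm]
      refine sum_congr rfl fun x _ => ?_
      rw [sum_comm]
      exact sum_congr rfl fun y _ => sum_iz2 x y
    rw [e1]
    calc ∑ x ∈ PX s M, ∑ y ∈ PX s M, ((ze2 x y).card : ℝ) ^ 2
        = ∑ x ∈ PX s M, (B / (M : ℝ) ^ 2) ^ 2 * ∑ y ∈ PX s M, (nr x y : ℝ) ^ 2 := by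
          refine sum_congr rfl fun x _ => ?_
          rw [mul_sum]
          refine sum_congr rfl fun y _ => ?_
          rw [c2, mul_pow]
      _ ≤ ∑ x ∈ PX s M, (B / (M : ℝ) ^ 2) ^ 2 * ((M : ℝ) ^ s * H) := by
          refine sum_le_sum fun x hx => mul_le_mul_of_nonneg_left ?_ (by positivity)
          rw [hH]
          exact hAQ2 s M x (mem_filter.1 hx).2
      _ = ((PX s M).card : ℝ) * ((B / (M : ℝ) ^ 2) ^ 2 * ((M : ℝ) ^ s * H)) := by
          rw [sum_const, nsmul_eq_mul]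
      _ ≤ (M : ℝ) ^ s * ((B / (M : ℝ) ^ 2) ^ 2 * ((M : ℝ) ^ s * H)) :=
          mul_le_mul_of_nonneg_right hPX (by positivity)
      _ = B ^ 2 * A ^ 2 * H := by
          rw [hMs]
          field_simp
  -- the number of the primitive vectors
  have m3 : B ^ 2 * A * (1 - P) ≤ ∑ F : Fin 2 → Mon s → ZMod M, (am M F : ℝ) := by
    rw [m1]
    have h1 := hAQ3 s M
    rw [← hP] at h1
    have h2 : (M : ℝ) ^ s * (1 - P) ≤ ((PX s M).card : ℝ) := h1
    calc B ^ 2 * A * (1 - P) = (M : ℝ) ^ s * (1 - P) * (B / M) ^ 2 := by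
          rw [hMs]
          field_simp
      _ ≤ ((PX s M).card : ℝ) * (B / M) ^ 2 := mul_le_mul_of_nonneg_right h2 (by positivity)
  -- the divisors
  have hdiv : ∀ h ∈ M.divisors.erase 1, w₀ < h := by
    intro h hh
    rw [mem_erase, Nat.mem_divisors] at hh
    obtain ⟨p, hpp, hph⟩ := Nat.exists_prime_and_dvd hh.1
    have h1 := hp p hpp (hph.trans hh.2.1)
    have h2 : 0 < h := Nat.pos_of_dvd_of_pos hh.2.1 hM0
    exact lt_of_lt_of_le h1 (Nat.le_of_dvd h2 hph)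
  have hH1 : H ≤ 1 + 1 / (w₀ : ℝ) ^ 2 := by
    have h1 : (1 : ℕ) ∈ M.divisors := Nat.one_mem_divisors.2 hM0.ne'
    rw [hH, ← add_sum_erase _ _ h1]
    refine add_le_add (by simp) ?_
    refine (sum_le_sum fun h hh => ?_).trans (tailD w₀ hw _ hdiv)
    have h2 : 1 ≤ h := by
      have := hdiv h hh
      omega
    have h3 : (1 : ℝ) ≤ h := by exact_mod_cast h2
    rw [div_le_div_iff₀ (by positivity) (by positivity), one_mul, ← pow_add]
    exact pow_le_pow_right₀ h3 (by omega)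
  have hP1 : P ≤ 1 / (w₀ : ℝ) ^ 2 := by
    rw [hP]
    refine (sum_le_sum fun p hpp => ?_).trans (tailD w₀ hw M.primeFactors fun p hpp =>
      hp p (Nat.prime_of_mem_primeFactors hpp) (Nat.dvd_of_mem_primeFactors hpp))
    have h2 : 1 ≤ p := (Nat.prime_of_mem_primeFactors hpp).one_lt.le
    have h3 : (1 : ℝ) ≤ p := by exact_mod_cast h2
    exact one_div_le_one_div_of_le (by positivity) (pow_le_pow_right₀ h3 (by omega))
  -- the variance
  have hcard : ∑ _F : Fin 2 → Mon s → ZMod M, A ^ 2 = B ^ 2 * A ^ 2 := by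
    rw [sum_const, nsmul_eq_mul, card_univ, Fintype.card_fun, Fintype.card_fun, ZMod.card,
      Fintype.card_fin, hB]
    push_cast
    ring
  have var : ∑ F : Fin 2 → Mon s → ZMod M, ((am M F : ℝ) - A) ^ 2 ≤
      B ^ 2 * A ^ 2 * (3 / (w₀ : ℝ) ^ 2) := by
    have e1 : ∑ F : Fin 2 → Mon s → ZMod M, ((am M F : ℝ) - A) ^ 2 =
        ∑ F : Fin 2 → Mon s → ZMod M, (am M F : ℝ) ^ 2 -
          2 * A * ∑ F : Fin 2 → Mon s → ZMod M, (am M F : ℝ) + B ^ 2 * A ^ 2 := by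
      rw [← hcard, mul_sum, ← sum_sub_distrib, ← sum_add_distrib]
      exact sum_congr rfl fun F _ => by ring
    rw [e1]
    have h1 : 2 * A * (B ^ 2 * A * (1 - P)) ≤
        2 * A * ∑ F : Fin 2 → Mon s → ZMod M, (am M F : ℝ) :=
      mul_le_mul_of_nonneg_left m3 (by positivity)
    have h2 : B ^ 2 * A ^ 2 * (H - 1 + 2 * P) ≤ B ^ 2 * A ^ 2 * (3 / (w₀ : ℝ) ^ 2) := by
      refine mul_le_mul_of_nonneg_left ?_ (by positivity)
      have h3 : 3 / (w₀ : ℝ) ^ 2 = 1 / (w₀ : ℝ) ^ 2 + 2 * (1 / (w₀ : ℝ) ^ 2) := by ring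
      rw [h3]
      linarith
    have h4 : B ^ 2 * A ^ 2 * H - 2 * A * (B ^ 2 * A * (1 - P)) + B ^ 2 * A ^ 2 =
        B ^ 2 * A ^ 2 * (H - 1 + 2 * P) := by ring
    linarith
  -- Chebyshev
  obtain ⟨Z, hZ⟩ : ∃ Z : Finset (Fin 2 → Mon s → ZMod M),
    Z = univ.filter fun F : Fin 2 → Mon s → ZMod M => 2 * am M F < M ^ (s - 2) := ⟨_, rfl⟩
  have hZc : ((Finset.univ.filter fun F : Fin 2 → Mon s → ZMod M =>
      2 * am M F < M ^ (s - 2)).card : ℝ) = (Z.card : ℝ) := by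
    rw [hZ]
  rw [hZc]
  have h5 : (Z.card : ℝ) * (A ^ 2 / 4) ≤ ∑ F : Fin 2 → Mon s → ZMod M, ((am M F : ℝ) - A) ^ 2 := by
    calc (Z.card : ℝ) * (A ^ 2 / 4) = ∑ _F ∈ Z, A ^ 2 / 4 := by rw [sum_const, nsmul_eq_mul]
      _ ≤ ∑ F ∈ Z, ((am M F : ℝ) - A) ^ 2 := by
          refine sum_le_sum fun F hF => ?_
          rw [hZ, mem_filter] at hF
          have h6 : 2 * (am M F : ℝ) < A := by
            rw [hA]
            exact_mod_cast hF.2
          nlinarith
      _ ≤ ∑ F : Fin 2 → Mon s → ZMod M, ((am M F : ℝ) - A) ^ 2 :=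
          sum_le_sum_of_subset_of_nonneg (subset_univ _) fun _ _ _ => sq_nonneg _
  have h7 : (Z.card : ℝ) * (A ^ 2 / 4) ≤ B ^ 2 * A ^ 2 * (3 / (w₀ : ℝ) ^ 2) := h5.trans var
  have h8 : (M : ℝ) ^ (2 * md s) = B ^ 2 := by
    rw [hB, ← pow_mul, mul_comm]
  rw [h8]
  have h9 : (Z.card : ℝ) * (w₀ : ℝ) ^ 2 * (A ^ 2 / 4) ≤ 12 * B ^ 2 * (A ^ 2 / 4) := by
    calc (Z.card : ℝ) * (w₀ : ℝ) ^ 2 * (A ^ 2 / 4) = (Z.card : ℝ) * (A ^ 2 / 4) * (w₀ : ℝ) ^ 2 := by
          ring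
      _ ≤ B ^ 2 * A ^ 2 * (3 / (w₀ : ℝ) ^ 2) * (w₀ : ℝ) ^ 2 :=
          mul_le_mul_of_nonneg_right h7 (by positivity)
      _ = 12 * B ^ 2 * (A ^ 2 / 4) := by
          field_simp
          ring
  exact le_of_mul_le_mul_right h9 (by positivity)

end Pool.Agent.H81.RQ
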